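import Pool.Agent.W25.UB.Stm4

/-!
# A third of the multiples of an even number (project UB, part C1b)
-/

set_option autoImplicit false

namespace Pool.Agent.W432.UB

open Finset Pool.Agent.H461R2.PD Pool.Agent.H947R3.GM Pool.Agent.W59.GB

open Classical in
/-- if large templates cannot be extended then many differences are in `D`, in every window; one
set of differences for each class -/
theorem stepY {D : Set ℕ} {Q t : ℕ} (hQ : 0 < Q) {C : (Fin t → ℕ) → Prop}
    {C' : (Fin (t + 1) → ℕ) → Prop} {X : Set ℕ}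
    (hext : ∀ r, C r → ∀ x ∈ X, C' (Fin.cons (x % Q) r))
    (ht : ∀ M, TemplC D Q t C M) {K₀ : ℕ} (hK₀ : ¬ TemplC D Q (t + 1) C' K₀)
    {Y : Fin t → Set ℕ}
    (hYX : ∀ r, C r → ∀ i, ∀ a d, a ≡ r i [MOD Q] → a + d ∈ X → d ∈ Y i)
    {ε : ℝ} (hε : 0 < ε) :
    ∃ N₀ : ℕ, ∀ N ≥ N₀, ∀ u, (win X u N : ℝ) ≤ ∑ i, (win (D ∩ Y i) u N : ℝ) + ε * N := by
  set M : ℕ := max (K₀ + 1) (K₀ + ⌈2 * t * (K₀ : ℝ) / ε⌉₊) with hM
  have hM1 : K₀ < M := Nat.lt_of_succ_le (le_max_left _ _)
  have hMε : 2 * t * (K₀ : ℝ) ≤ ε * ((M : ℝ) - K₀) := by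
    have h1 : K₀ + ⌈2 * t * (K₀ : ℝ) / ε⌉₊ ≤ M := le_max_right _ _
    have h2 : (K₀ : ℝ) + ⌈2 * t * (K₀ : ℝ) / ε⌉₊ ≤ M := by exact_mod_cast h1
    have h3 : 2 * t * (K₀ : ℝ) / ε ≤ (M : ℝ) - K₀ := by
      have := Nat.le_ceil (2 * t * (K₀ : ℝ) / ε)
      linarith
    rw [div_le_iff₀ hε] at h3
    linarith
  obtain ⟨A, r, hCr, hAM, hdis, hbad, hr⟩ := ht M
  -- a bound for the elements
  obtain ⟨L, hL⟩ : ∃ L, ∀ i, ∀ a ∈ A i, a ≤ L :=
    ⟨univ.sup fun i => (A i).sup id, fun i a ha =>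
      (le_sup (f := id) ha).trans (le_sup (f := fun i => (A i).sup id) (mem_univ i))⟩
  set nb : ℕ → Fin t → Finset ℕ := fun x i => (A i).filter fun a => x - a ∉ D with hnb
  set E : ℕ := K₀ * ((∏ i : Fin t, 2 ^ (A i).card) * Q) with hE
  -- few exceptional integers
  have hexc : ∀ u v, L ≤ u → ((Ioc u v).filter fun x => x ∈ X ∧ ∀ i, K₀ ≤ (nb x i).card).card ≤ E := by
    intro u w hLu
    by_contra hcon
    push Not at hcon
    set Z := (Ioc u w).filter fun x => x ∈ X ∧ ∀ i, K₀ ≤ (nb x i).card with hZ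
    have hmaps : ∀ x ∈ Z, (nb x, x % Q) ∈
        (Fintype.piFinset fun i => (A i).powerset) ×ˢ range Q := by
      intro x _
      rw [mem_product, Fintype.mem_piFinset]
      refine ⟨fun i => ?_, mem_range.2 (Nat.mod_lt _ hQ)⟩
      rw [mem_powerset]
      exact filter_subset _ _
    obtain ⟨⟨v, q⟩, _, hv⟩ := exists_lt_card_fiber_of_mul_lt_card_of_maps_to hmaps (n := K₀) (by
      rw [card_product, Fintype.card_piFinset, card_range]
      simp only [card_powerset]
      calc ((∏ i, 2 ^ (A i).card) * Q) * K₀ = E := by rw [hE, mul_comm]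
        _ < Z.card := hcon)
    obtain ⟨Y, hY, hYc⟩ := exists_subset_card_eq hv.le
    -- the fibre is not empty
    obtain ⟨x₀, hx₀⟩ : (Z.filter fun x => (nb x, x % Q) = (v, q)).Nonempty :=
      card_pos.1 (by omega)
    rw [mem_filter] at hx₀
    have hx₀v : nb x₀ = v := (Prod.mk.inj hx₀.2).1
    have hx₀q : x₀ % Q = q := (Prod.mk.inj hx₀.2).2
    have hvK : ∀ i, K₀ ≤ (v i).card := by
      intro i
      rw [← hx₀v]
      exact (mem_filter.1 hx₀.1).2.2 i
    choose Bs hBs hBc using fun i => exists_subset_card_eq (hvK i)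
    have hYv : ∀ y ∈ Y, y ∈ Z ∧ nb y = v ∧ y % Q = q := fun y hy => by simpa using hY hy
    have hvA : ∀ i, v i ⊆ A i := by
      intro i
      rw [← hx₀v]
      exact filter_subset _ _
    have hlt : ∀ i, ∀ b ∈ Bs i, ∀ y ∈ Y, b < y := by
      intro i b hb y hy
      have h1 := hL i b (hvA i (hBs i hb))
      have h2 := (mem_filter.1 (hYv y hy).1).1
      rw [mem_Ioc] at h2
      omega
    have hbY : ∀ i, ∀ b ∈ Bs i, ∀ y ∈ Y, Bad D b y := by
      intro i b hb y hy
      refine ⟨fun _ => ?_, fun h => absurd (hlt i b hb y hy) (by omega)⟩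
      have h1 : b ∈ nb y i := by rw [(hYv y hy).2.1]; exact hBs i hb
      exact (mem_filter.1 h1).2
    apply hK₀
    refine ⟨Fin.cons Y Bs, Fin.cons q r, ?_, ?_, ?_, ?_, ?_⟩
    · rw [← hx₀q]
      exact hext r hCr x₀ (mem_filter.1 hx₀.1).2.1
    · intro i
      refine Fin.cases ?_ (fun i => ?_) i
      · simpa using hYc
      · simpa using hBc i
    · intro i j
      refine Fin.cases ?_ (fun i => ?_) i <;> refine Fin.cases ?_ (fun j => ?_) j
      · intro h; exact absurd rfl h
      · intro _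
        simp only [Fin.cons_zero, Fin.cons_succ]
        rw [disjoint_left]
        intro y hy hb
        exact lt_irrefl _ (hlt j y hb y hy)
      · intro _
        simp only [Fin.cons_zero, Fin.cons_succ]
        rw [disjoint_left]
        intro y hb hy
        exact lt_irrefl _ (hlt i y hb y hy)
      · intro h
        simp only [Fin.cons_succ]
        have hij : i ≠ j := fun h' => h (by rw [h'])
        exact disjoint_of_subset_left ((hBs i).trans (hvA i))
          (disjoint_of_subset_right ((hBs j).trans (hvA j)) (hdis i j hij))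
    · intro i j
      refine Fin.cases ?_ (fun i => ?_) i <;> refine Fin.cases ?_ (fun j => ?_) j
      · intro h; exact absurd rfl h
      · intro _ a ha b hb
        simp only [Fin.cons_zero] at ha
        simp only [Fin.cons_succ] at hb
        exact (hbY j b hb a ha).symm
      · intro _ a ha b hb
        simp only [Fin.cons_succ] at ha
        simp only [Fin.cons_zero] at hb
        exact hbY i a ha b hb
      · intro h a ha b hb
        simp only [Fin.cons_succ] at ha hb
        have hij : i ≠ j := fun h' => h (by rw [h'])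
        exact hbad i j hij a (hvA i (hBs i ha)) b (hvA j (hBs j hb))
    · intro i
      refine Fin.cases ?_ (fun i => ?_) i
      · intro a ha
        simp only [Fin.cons_zero] at ha ⊢
        have h1 := hYv a ha
        rw [← h1.2.2]
        exact (Nat.mod_modEq _ _).symm
      · intro a ha
        simp only [Fin.cons_succ] at ha ⊢
        exact hr i a (hvA i (hBs i ha))
  -- the double count
  have hmain : ∀ u N : ℕ, ((M : ℝ) - K₀) * ((win X u N : ℝ) - L - E) ≤
      M * ∑ i, (win (D ∩ Y i) u N : ℝ) := by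
    intro u N
    rw [win_eq]
    set SN := (Ioc u (u + N)).filter fun s => s ∈ X with hSN
    set Z := (Ioc (u + L) (u + N)).filter fun x => x ∈ X ∧ ¬ ∀ i, K₀ ≤ (nb x i).card with hZ
    have hZc : SN.card ≤ Z.card + E + L := by
      have h1 : SN ⊆ (((Ioc (u + L) (u + N)).filter fun x => x ∈ X ∧ ∀ i, K₀ ≤ (nb x i).card) ∪ Z) ∪
          Ioc u (u + L) := by
        intro s hs
        rw [hSN, mem_filter, mem_Ioc] at hs
        simp only [mem_union, hZ, mem_filter, mem_Ioc]
        by_cases hsL : s ≤ u + L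
        · right; exact ⟨hs.1.1, hsL⟩
        · left
          by_cases hc : ∀ i, K₀ ≤ (nb s i).card
          · left; exact ⟨⟨by omega, hs.1.2⟩, hs.2, hc⟩
          · right; exact ⟨⟨by omega, hs.1.2⟩, hs.2, hc⟩
      have h2 := (card_le_card h1).trans ((card_union_le _ _).trans
        (Nat.add_le_add_right (card_union_le _ _) _))
      rw [Nat.card_Ioc] at h2
      have h3 := hexc (u + L) (u + N) (by omega)
      omega
    have h1 : (M - K₀) * Z.card ≤ ∑ x ∈ Z, ∑ i, ∑ a ∈ A i,
        if x - a ∈ D then 1 else 0 := by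
      calc (M - K₀) * Z.card = ∑ _x ∈ Z, (M - K₀) := by simp [mul_comm]
        _ ≤ _ := by
            refine sum_le_sum fun x hx => ?_
            have h2 := (mem_filter.1 hx).2.2
            push Not at h2
            obtain ⟨i, hi⟩ := h2
            refine le_trans ?_ (single_le_sum (f := fun i => ∑ a ∈ A i,
              if x - a ∈ D then 1 else 0) (fun _ _ => Nat.zero_le _) (mem_univ i))
            rw [← card_filter]
            have h3 := card_filter_add_card_filter_not (s := A i) (fun a => x - a ∈ D)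
            rw [hAM i] at h3
            have h4 : ((A i).filter fun a => ¬ x - a ∈ D).card < K₀ := hi
            omega
    have h2 : ∑ x ∈ Z, ∑ i, ∑ a ∈ A i, (if x - a ∈ D then 1 else 0) ≤
        M * ∑ i, win (D ∩ Y i) u N := by
      calc _ = ∑ i, ∑ a ∈ A i, ∑ x ∈ Z, (if x - a ∈ D then 1 else 0) := by
            rw [sum_comm]
            exact sum_congr rfl fun i _ => sum_comm
        _ ≤ ∑ i, ∑ _a ∈ A i, win (D ∩ Y i) u N := by
            refine sum_le_sum fun i _ => sum_le_sum fun a ha => ?_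
            rw [← card_filter, win_eq]
            apply card_le_card_of_injOn (fun x => x - a)
            · intro x hx
              simp only [hZ, coe_filter, mem_filter, Set.mem_ofPred_eq, mem_Ioc] at hx
              have h3 := hL i a ha
              simp only [coe_filter, Set.mem_ofPred_eq, mem_Ioc]
              refine ⟨⟨by omega, by omega⟩, hx.2, hYX r hCr i a _ (hr i a ha) ?_⟩
              have e : a + (x - a) = x := by omega
              rw [e]
              exact hx.1.2.1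
            · intro x hx y hy hxy
              simp only [hZ, coe_filter, mem_filter, Set.mem_ofPred_eq, mem_Ioc] at hx hy
              have h3 := hL i a ha
              simp only at hxy
              omega
        _ = M * ∑ i, win (D ∩ Y i) u N := by
            simp [hAM, mul_sum]
    have h3 : (M - K₀) * Z.card ≤ M * ∑ i, win (D ∩ Y i) u N := h1.trans h2
    have h4 : ((M : ℝ) - K₀) * Z.card ≤ M * ∑ i, (win (D ∩ Y i) u N : ℝ) := by
      have : ((M - K₀ : ℕ) : ℝ) = (M : ℝ) - K₀ := by rw [Nat.cast_sub hM1.le]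
      rw [← this]
      exact_mod_cast h3
    refine le_trans ?_ h4
    have h5 : (SN.card : ℝ) ≤ Z.card + E + L := by exact_mod_cast hZc
    have h6 : (K₀ : ℝ) < M := by exact_mod_cast hM1
    have h7 : 0 ≤ (M : ℝ) - K₀ := by linarith
    have h8 : (SN.card : ℝ) - L - E ≤ Z.card := by linarith
    exact mul_le_mul_of_nonneg_left h8 h7
  refine ⟨⌈2 * ((L : ℝ) + E) / ε⌉₊, fun N hN u => ?_⟩
  have hNε : 2 * ((L : ℝ) + E) ≤ ε * N := by
    have h1 : 2 * ((L : ℝ) + E) / ε ≤ N := (Nat.le_ceil _).trans (by exact_mod_cast hN)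
    rw [div_le_iff₀ hε] at h1
    linarith
  have h1 := hmain u N
  set d : ℝ := ∑ i, (win (D ∩ Y i) u N : ℝ) with hd
  have hd0 : 0 ≤ d := by positivity
  have hdN : d ≤ t * N := by
    have h1 : ∀ i, (win (D ∩ Y i) u N : ℝ) ≤ N := by
      intro i
      have h1 : win (D ∩ Y i) u N ≤ (Ioc u (u + N)).card := by
        rw [win_eq]; exact card_filter_le _ _
      rw [Nat.card_Ioc] at h1
      exact_mod_cast (by omega : win (D ∩ Y i) u N ≤ N)
    calc d ≤ ∑ _i : Fin t, (N : ℝ) := sum_le_sum fun i _ => h1 i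
      _ = t * N := by simp
  have h6 : 0 < (M : ℝ) - K₀ := by
    have : (K₀ : ℝ) < M := by exact_mod_cast hM1
    linarith
  refine le_of_mul_le_mul_left ?_ h6
  have h2 : (K₀ : ℝ) * d ≤ (ε / 2 * ((M : ℝ) - K₀)) * N := by
    calc (K₀ : ℝ) * d ≤ K₀ * (t * N) := mul_le_mul_of_nonneg_left hdN (Nat.cast_nonneg _)
      _ = (t * K₀) * N := by ring
      _ ≤ _ := by
          apply mul_le_mul_of_nonneg_right _ (Nat.cast_nonneg _)
          linarith
  have h3 : ((M : ℝ) - K₀) * ((L : ℝ) + E) ≤ ((M : ℝ) - K₀) * (ε / 2 * N) := by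
    apply mul_le_mul_of_nonneg_left _ h6.le
    linarith
  nlinarith

/-- four classes -/
theorem not_four {D : Set ℕ} {N K Q : ℕ}
    (hQK : ∀ p, p ≤ 4 * K → p.Prime → p ∣ Q)
    (hD : ∀ H : Fin 4 → Fin K → ℕ, AdmN N H →
      ∃ g g' i i', g ≠ g' ∧ H g i < H g' i' ∧ H g' i' - H g i ∈ D)
    {C : (Fin 4 → ℕ) → Prop}
    (hC : ∀ r, C r → ∀ p : ℕ, p.Prime → p ≤ 4 → ¬ p ∣ N →
      ∃ n : ℤ, ∀ g, ¬ ((p : ℤ) ∣ n + r g)) :
    ¬ TemplC D Q 4 C K := by
  classical
  rintro ⟨A, r, hCr, hA, hdis, hbad, hr⟩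
  set e : ∀ g, Fin K ≃ A g := fun g => ((A g).equivFinOfCardEq (hA g)).symm with he
  have key : ∀ p : ℕ, p.Prime → p ≤ 4 * K → ∀ n : ℤ, (∀ g, ¬ ((p : ℤ) ∣ n + r g)) →
      ∃ n : ℤ, ∀ g i, ¬ ((p : ℤ) ∣ n + ((e g i : ℕ) : ℤ)) := by
    intro p hp hpK n hn
    refine ⟨n, fun g i hd => hn g ?_⟩
    have h1 : ((e g i : ℕ) : ZMod p) = (r g : ZMod p) := by
      rw [ZMod.natCast_eq_natCast_iff]
      exact (hr g _ (e g i).2).of_dvd (hQK p hpK hp)
    rw [← ZMod.intCast_zmod_eq_zero_iff_dvd] at hd ⊢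
    push_cast at hd ⊢
    rw [← h1]
    exact hd
  obtain ⟨g, g', i, i', hg, hlt, hmem⟩ := hD (fun g i => (e g i : ℕ)) (by
    refine ⟨?_, ?_⟩
    · rintro ⟨g, i⟩ ⟨g', i'⟩ hx
      simp only at hx
      have hgg : g = g' := by
        by_contra hgg
        exact disjoint_left.1 (hdis g g' hgg) (e g i).2 (by rw [hx]; exact (e g' i').2)
      subst hgg
      have : e g i = e g i' := Subtype.ext hx
      rw [(e g).injective this]
    · intro p hp hpN
      rcases le_or_gt p (4 * K) with hpz | hpz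
      · refine (?_ : ∃ n : ℤ, ∀ g, ¬ ((p : ℤ) ∣ n + r g)).elim fun n hn => key p hp hpz n hn
        rcases le_or_gt p 4 with hp5 | hp5
        · exact hC r hCr p hp hp5 hpN
        · obtain ⟨n, hn⟩ := exists_shift (T := 4) (K := 1) hp (by omega) (fun g _ => r g)
          exact ⟨n, fun g => hn g 0⟩
      · exact exists_shift hp hpz _)
  exact (hbad g g' hg _ (e g i).2 _ (e g' i').2).1 hlt hmem

/-- a maximal number of classes -/
theorem ladder3 {D : Set ℕ} {Q : ℕ} {C : ∀ t, (Fin t → ℕ) → Prop} {K s : ℕ} (hs : s ≤ 3)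
    (h5 : ¬ TemplC D Q 4 (C 4) K) (h1 : ∀ M, TemplC D Q s (C s) M) :
    ∃ t ≤ 3, (s ≤ t) ∧ (∀ M, TemplC D Q t (C t) M) ∧
      ∃ K₀, ¬ TemplC D Q (t + 1) (C (t + 1)) K₀ := by
  by_contra hcon
  push Not at hcon
  have : ∀ t, s + t ≤ 4 → ∀ M, TemplC D Q (s + t) (C (s + t)) M := by
    intro t
    induction t with
    | zero => exact fun _ M => h1 M
    | succ t ih => exact fun h => hcon (s + t) (by omega) (by omega) (ih (by omega))
  have h2 := this (4 - s) (by omega) K
  have e : s + (4 - s) = 4 := by omega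
  rw [e] at h2
  exact h5 h2

/-- `6 ∣ N`: a third of the multiples -/
theorem third_six {N : ℕ} {D : Set ℕ} (h6 : 6 ∣ N)
    (hD : ∃ K : ℕ, 1 ≤ K ∧ ∀ H : Fin 4 → Fin K → ℕ, AdmN N H →
      ∃ g g' i i', g ≠ g' ∧ H g i < H g' i' ∧ H g' i' - H g i ∈ D) {ε : ℝ} (hε : 0 < ε) :
    ∃ N₀ : ℕ, ∀ M ≥ N₀, ∀ u, (1 / 3 - ε) * (M : ℝ) ≤ (win D u M : ℝ) := by
  classical
  obtain ⟨K, hK, hD⟩ := hD
  set Q : ℕ := (4 * K).factorial with hQdef
  have hQ : 0 < Q := Nat.factorial_pos _
  have hQp : ∀ p, p ≤ 4 * K → p.Prime → p ∣ Q := fun p hp hpp => Nat.dvd_factorial hpp.pos hp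
  have h5 : ¬ TemplC D Q 4 (fun _ => True) K := by
    refine not_four hQp hD fun r _ p hp hp5 hpN => absurd ?_ hpN
    refine dvd_trans ?_ h6
    interval_cases p
    · exact absurd hp (by norm_num)
    · exact absurd hp (by norm_num)
    · norm_num
    · norm_num
    · exact absurd hp (by norm_num)
  obtain ⟨t, ht3, -, ht, K₀, hK₀⟩ := ladder3 (C := fun _ _ => True) (s := 1) (by norm_num) h5
    (templ_one _ hQ 0 trivial)
  obtain ⟨N₀, hN₀⟩ := Pool.Agent.W59.GB.step (X := Set.univ) (Y := Set.univ) hQ (fun _ _ _ _ => trivial) ht hK₀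
    (fun _ _ _ _ _ _ _ => trivial) (show 0 < 2 * ε by positivity)
  refine ⟨max N₀ ⌈1 / ε⌉₊, fun M hM u => ?_⟩
  have h1 := hN₀ M ((le_max_left _ _).trans hM) u
  have h2 := classes_win (P := 1) one_pos (F := {0}) (by simp) (X := Set.univ) (by simp) u M
  rw [Set.inter_univ] at h1
  set d : ℝ := (win D u M : ℝ) with hd
  have hd0 : 0 ≤ d := by positivity
  have ht4 : (t : ℝ) ≤ 3 := by exact_mod_cast ht3
  have h8 : (t : ℝ) * d ≤ 3 * d := mul_le_mul_of_nonneg_right ht4 hd0
  have h9 : (1 : ℝ) ≤ ε * M := by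
    have h1 : 1 / ε ≤ M :=
      (Nat.le_ceil _).trans (by exact_mod_cast (le_max_right _ _).trans hM)
    rw [div_le_iff₀ (by positivity)] at h1
    linarith
  simp at h2
  linarith

/-- the residues of the classes modulo `3` -/
def R3 {t : ℕ} (q : Fin t → ℕ) (r : Fin t → ℕ) : Prop := ∀ i, r i % 3 = q i

/-- the number of elements of `D` in the class `j` modulo `3` -/
theorem third_aux {N : ℕ} {D : Set ℕ} (h2N : 2 ∣ N)
    (hD : ∃ K : ℕ, 1 ≤ K ∧ ∀ H : Fin 4 → Fin K → ℕ, AdmN N H →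
      ∃ g g' i i', g ≠ g' ∧ H g i < H g' i' ∧ H g' i' - H g i ∈ D) {ε : ℝ} (hε : 0 < ε)
    {c : ℕ} (hc : c = 1 ∨ c = 2) :
    ∃ N₀ : ℕ, ∀ M ≥ N₀, ∀ u, (1 / 3 - ε) * (M : ℝ) ≤
      2 * (win (D ∩ {d | d % 3 = c}) u M : ℝ) + (win (D ∩ {d | d % 3 = 0}) u M : ℝ) := by
  classical
  obtain ⟨K, hK, hD⟩ := hD
  set Q : ℕ := (4 * K).factorial with hQdef
  have hQ : 0 < Q := Nat.factorial_pos _
  have hQp : ∀ p, p ≤ 4 * K → p.Prime → p ∣ Q := fun p hp hpp => Nat.dvd_factorial hpp.pos hp
  have hQ3 : 3 ∣ Q := Nat.dvd_factorial (by norm_num) (by omega)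
  have hc3 : c % 3 = c := by omega
  have h5 : ¬ TemplC D Q 4 (R3 ![c, c, 0, 0]) K := by
    refine not_four hQp hD fun r hr p hp hp5 hpN => ?_
    interval_cases p
    · exact absurd hp (by norm_num)
    · exact absurd hp (by norm_num)
    · exact absurd h2N hpN
    · refine ⟨c, fun g hd => ?_⟩
      have h1 : 3 ∣ c + r g := by exact_mod_cast hd
      have h2 := hr g
      have h3 : (![c, c, 0, 0] : Fin 4 → ℕ) g = c ∨ (![c, c, 0, 0] : Fin 4 → ℕ) g = 0 := by
        fin_cases g <;> simp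
      omega
    · exact absurd hp (by norm_num)
  -- the density of a class
  have hcl : ∀ j < 3, ∀ u M : ℕ, (1 : ℝ) / 3 * M - 3 ≤ (win {x | x % 3 = j} u M : ℝ) := by
    intro j hj u M
    have h2 := classes_win (P := 3) (by norm_num) (F := {j}) (by simpa using hj)
      (X := {x | x % 3 = j}) (by simp) u M
    rw [card_singleton] at h2
    push_cast at h2
    exact h2
  have hmodQ : ∀ a b : ℕ, a ≡ b [MOD Q] → a % 3 = b % 3 := fun a b h => h.of_dvd hQ3
  have hmodx : ∀ x : ℕ, (x % Q) % 3 = x % 3 := fun x => Nat.mod_mod_of_dvd _ hQ3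
  -- the conclusion from a step
  have hfin : ∀ j < 3, (∃ N₀ : ℕ, ∀ M ≥ N₀, ∀ u, (win {x | x % 3 = j} u M : ℝ) ≤
      2 * (win (D ∩ {d | d % 3 = c}) u M : ℝ) + (win (D ∩ {d | d % 3 = 0}) u M : ℝ) +
        ε / 2 * M) → ∃ N₀ : ℕ, ∀ M ≥ N₀, ∀ u, (1 / 3 - ε) * (M : ℝ) ≤
      2 * (win (D ∩ {d | d % 3 = c}) u M : ℝ) + (win (D ∩ {d | d % 3 = 0}) u M : ℝ) := by
    rintro j hj ⟨N₀, hN₀⟩
    refine ⟨max N₀ ⌈6 / ε⌉₊, fun M hM u => ?_⟩
    have h1 := hN₀ M ((le_max_left _ _).trans hM) u
    have h2 := hcl j hj u M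
    have h3 : (6 : ℝ) ≤ ε * M := by
      have h1 : 6 / ε ≤ M :=
        (Nat.le_ceil _).trans (by exact_mod_cast (le_max_right _ _).trans hM)
      rw [div_le_iff₀ hε] at h1
      linarith
    linarith
  by_cases hA : ∀ M, TemplC D Q 2 (R3 ![0, 0]) M
  · by_cases hB : ∀ M, TemplC D Q 3 (R3 ![c, 0, 0]) M
    · refine hfin c (by omega) ?_
      obtain ⟨N₀, hN₀⟩ := stepY (D := D) (X := {x | x % 3 = c})
        (C := R3 ![c, 0, 0]) (C' := R3 ![c, c, 0, 0])
        (Y := ![{d | d % 3 = 0}, {d | d % 3 = c}, {d | d % 3 = c}]) hQ (by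
          intro r hr x hx i
          have hx' : x % 3 = c := hx
          refine Fin.cases ?_ (fun i => ?_) i
          · simp only [Fin.cons_zero, Matrix.cons_val_zero]
            rw [hmodx, hx']
          · simp only [Fin.cons_succ, Matrix.cons_val_succ]
            exact hr i) hB h5 (by
          intro r hr i a d ha hd
          have h1 := hmodQ _ _ ha
          have h2 : (a + d) % 3 = c := hd
          have h3 := hr i
          fin_cases i
          · simp at h1 h3 ⊢
            omega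
          · simp at h1 h3 ⊢
            omega
          · simp at h1 h3 ⊢
            omega) (show 0 < ε / 2 by positivity)
      refine ⟨N₀, fun M hM u => ?_⟩
      have h1 := hN₀ M hM u
      rw [Fin.sum_univ_three] at h1
      simp only [Matrix.cons_val_zero, Matrix.cons_val_one, Matrix.cons_val] at h1
      linarith
    · push Not at hB
      obtain ⟨K₀, hK₀⟩ := hB
      refine hfin c (by omega) ?_
      obtain ⟨N₀, hN₀⟩ := Pool.Agent.W59.GB.step (D := D) (X := {x | x % 3 = c}) (C := R3 ![0, 0])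
        (C' := R3 ![c, 0, 0]) (Y := {d | d % 3 = c}) hQ (by
          intro r hr x hx i
          have hx' : x % 3 = c := hx
          refine Fin.cases ?_ (fun i => ?_) i
          · simp only [Fin.cons_zero, Matrix.cons_val_zero]
            rw [hmodx, hx']
          · simp only [Fin.cons_succ, Matrix.cons_val_succ]
            exact hr i) hA hK₀ (by
          intro r hr i a d ha hd
          have h1 := hmodQ _ _ ha
          have h2 : (a + d) % 3 = c := hd
          have h3 := hr i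
          show d % 3 = c
          have h4 : (![0, 0] : Fin 2 → ℕ) i = 0 := by fin_cases i <;> rfl
          omega) (show 0 < ε / 2 by positivity)
      refine ⟨N₀, fun M hM u => ?_⟩
      have h1 := hN₀ M hM u
      have h2 : (0 : ℝ) ≤ (win (D ∩ {d | d % 3 = 0}) u M : ℝ) := by positivity
      push_cast at h1
      linarith
  · push Not at hA
    obtain ⟨K₀, hK₀⟩ := hA
    refine hfin 0 (by omega) ?_
    obtain ⟨N₀, hN₀⟩ := Pool.Agent.W59.GB.step (D := D) (X := {x | x % 3 = 0}) (C := R3 ![0])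
      (C' := R3 ![0, 0]) (Y := {d | d % 3 = 0}) hQ (by
        intro r hr x hx i
        have hx' : x % 3 = 0 := hx
        refine Fin.cases ?_ (fun i => ?_) i
        · simp only [Fin.cons_zero, Matrix.cons_val_zero]
          rw [hmodx, hx']
        · simp only [Fin.cons_succ, Matrix.cons_val_succ]
          exact hr i) (templ_one D hQ 0 (by
            intro i
            fin_cases i
            rfl)) hK₀ (by
        intro r hr i a d ha hd
        have h1 := hmodQ _ _ ha
        have h2 : (a + d) % 3 = 0 := hd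
        have h3 := hr i
        show d % 3 = 0
        have h4 : (![0] : Fin 1 → ℕ) i = 0 := by fin_cases i; rfl
        omega) (show 0 < ε / 2 by positivity)
    refine ⟨N₀, fun M hM u => ?_⟩
    have h1 := hN₀ M hM u
    have h2 : (0 : ℝ) ≤ (win (D ∩ {d | d % 3 = c}) u M : ℝ) := by positivity
    push_cast at h1
    linarith

/-- `2 ∣ N`: a third of the multiples -/
theorem third_mult {N : ℕ} {D : Set ℕ} (h2N : 2 ∣ N)
    (hD : ∃ K : ℕ, 1 ≤ K ∧ ∀ H : Fin 4 → Fin K → ℕ, AdmN N H →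
      ∃ g g' i i', g ≠ g' ∧ H g i < H g' i' ∧ H g' i' - H g i ∈ D) {ε : ℝ} (hε : 0 < ε) :
    ∃ N₀ : ℕ, ∀ M ≥ N₀, ∀ u, (1 / 3 - ε) * (M : ℝ) ≤ (win D u M : ℝ) := by
  classical
  obtain ⟨N₁, hN₁⟩ := third_aux h2N hD hε (c := 1) (Or.inl rfl)
  obtain ⟨N₂, hN₂⟩ := third_aux h2N hD hε (c := 2) (Or.inr rfl)
  refine ⟨max N₁ N₂, fun M hM u => ?_⟩
  have h1 := hN₁ M ((le_max_left _ _).trans hM) u
  have h2 := hN₂ M ((le_max_right _ _).trans hM) u
  have h3 : win (D ∩ {d | d % 3 = 0}) u M + win (D ∩ {d | d % 3 = 1}) u M +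
      win (D ∩ {d | d % 3 = 2}) u M ≤ win D u M := by
    rw [win_eq, win_eq, win_eq, win_eq, ← card_union_of_disjoint, ← card_union_of_disjoint]
    · apply card_le_card
      intro d hd
      simp only [mem_filter, mem_Ioc, Set.mem_ofPred_eq, mem_union, Set.mem_inter_iff] at hd ⊢
      rcases hd with (h | h) | h
      · exact ⟨h.1, h.2.1⟩
      · exact ⟨h.1, h.2.1⟩
      · exact ⟨h.1, h.2.1⟩
    · rw [disjoint_left]
      intro d hd hd'
      simp only [mem_filter, mem_Ioc, Set.mem_ofPred_eq, Set.mem_inter_iff, mem_union] at hd hd'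
      omega
    · rw [disjoint_left]
      intro d hd hd'
      simp only [mem_filter, mem_Ioc, Set.mem_ofPred_eq, Set.mem_inter_iff] at hd hd'
      omega
  have h4 : (win (D ∩ {d | d % 3 = 0}) u M : ℝ) + win (D ∩ {d | d % 3 = 1}) u M +
      win (D ∩ {d | d % 3 = 2}) u M ≤ win D u M := by exact_mod_cast h3
  linarith

theorem main : Pool.Agent.W25.UB.St_C1b := by
  intro N D h2N hD ε hε
  exact third_mult h2N hD hε

end Pool.Agent.W432.UB
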